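import Pool.Agent.Helper51.RP.Goals1

/-!
# RP, S_ROO: roots of order p of an element congruent to 1 modulo the cube of p
-/

namespace Pool.Agent.Helper12.RP

open Pool.Agent.Helper51.RP

theorem step {R : Type*} [CommRing R] (p : ℕ) (a : R) (N : ℕ) (s : R)
    (h1 : (p : R) ^ (N + 3) ∣ s ^ p - a) (h2 : (p : R) ^ 2 ∣ s - 1) :
    ∃ s' : R, ((p : R) ^ (N + 1 + 3) ∣ s' ^ p - a ∧ (p : R) ^ 2 ∣ s' - 1) ∧
      (p : R) ^ (N + 2) ∣ s' - s := by
  obtain ⟨e, he⟩ := h1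
  obtain ⟨k, hk⟩ := Polynomial.powAddExpansion s (-((p : R) ^ (N + 2) * e)) p
  have h3 : (p : R) ^ 2 ∣ s ^ (p - 1) - 1 := by
    have := sub_dvd_pow_sub_pow s 1 (p - 1)
    rw [one_pow] at this
    exact h2.trans this
  obtain ⟨f, hf⟩ := h3
  refine ⟨s + -((p : R) ^ (N + 2) * e), ⟨?_, ?_⟩, ?_⟩
  · rw [hk]
    have h4 : s ^ p = a + (p : R) ^ (N + 3) * e := by rw [← he]; ring
    have h5 : s ^ (p - 1) = 1 + (p : R) ^ 2 * f := by rw [← hf]; ring
    rw [h4, h5]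
    refine ⟨-(p * e * f) + k * (p : R) ^ N * e ^ 2, ?_⟩
    ring
  · obtain ⟨g, hg⟩ := h2
    refine ⟨g - (p : R) ^ N * e, ?_⟩
    have : s + -((p : R) ^ (N + 2) * e) - 1 = (s - 1) - (p : R) ^ (N + 2) * e := by ring
    rw [this, hg]
    ring
  · exact ⟨-e, by ring⟩

theorem exists_roots {R : Type*} [CommRing R] (p : ℕ) (a : R) (ha : (p : R) ^ 3 ∣ a - 1) :
    ∃ s : ℕ → R, (∀ N, (p : R) ^ (N + 3) ∣ s N ^ p - a ∧ (p : R) ^ 2 ∣ s N - 1) ∧
      ∀ N, (p : R) ^ (N + 2) ∣ s (N + 1) - s N := by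
  let P : ℕ → R → Prop := fun N s => (p : R) ^ (N + 3) ∣ s ^ p - a ∧ (p : R) ^ 2 ∣ s - 1
  have h0 : P 0 1 := by
    refine ⟨?_, by simp⟩
    rw [one_pow, zero_add, ← neg_sub a 1]
    exact ha.neg_right
  choose! g hg hg' using fun N s (h : P N s) => step p a N s h.1 h.2
  let s : ℕ → R := fun N => Nat.rec 1 (fun N s => g N s) N
  have hs : ∀ N, P N (s N) := by
    intro N
    induction N with
    | zero => exact h0
    | succ N ih => exact hg N (s N) ih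
  exact ⟨s, hs, fun N => hg' N (s N) (hs N)⟩

theorem s_roo : S_ROO := by
  intro p _ K _ _ a ha
  obtain ⟨s, h1, h2⟩ := exists_roots p a ha
  refine ⟨s, fun N => ?_, fun N => ?_, fun N => (h1 N).2⟩
  · exact (pow_dvd_pow _ (by omega)).trans (h1 N).1
  · exact (pow_dvd_pow _ (by omega)).trans (h2 N)

end Pool.Agent.Helper12.RP
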